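import Pool.Agent.Results.MP_122e00_nt.PowerSavingShifts
import Pool.Agent.W5h80.Bil.D

/-!
# Correlations of the divisor functions with a power saving, for almost all shifts which are bilinear in the members of
two thin families of lattice points

Definitions used: from `Pool.Agent.Results.MP_122e00_nt.PowerSavingShifts`: the divisor functions `d`, the sums `D`, the
Ramanujan sums `ram`, the densities `κ`, the singular series `𝔖`, `Density`, `G`, `main`, `Asymp`.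
-/

set_option autoImplicit false

namespace Pool.Agent.Results.MP_122e00_nt.BilinearShifts

open Finset Polynomial
open Pool.Agent.Results.MP_122e00_nt.PowerSavingShifts (ram κ 𝔖 Density G Asymp)

/-- The additive energy of order `h` of a finite family `x i` (`i ∈ ι`) of points of `ℤ ^ d`: the number of solutions
of `x (a 1) + ... + x (a h) = x (b 1) + ... + x (b h)`. -/
noncomputable def energy (h : ℕ) {ι : Type} {d : ℕ} (x : ι → Fin d → ℤ) : ℕ :=
  Nat.card {q : (Fin h → ι) × (Fin h → ι) // ∑ j, x (q.1 j) = ∑ j, x (q.2 j)}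

/-- The family `f i + g j + a (x i · y j)`. -/
def value {ι lam : Type} {d : ℕ} (a : ℤ) (f : ι → ℤ) (g : lam → ℤ) (x : ι → Fin d → ℤ) (y : lam → Fin d → ℤ)
    (p : ι × lam) : ℤ :=
  f p.1 + g p.2 + a * ∑ k, x p.1 k * y p.2 k

/-- The number of the members `v i ≠ 0` of the family for which the asymptotic formulas fail. -/
noncomputable def exceptions (r N : ℕ) (P : ℕ → ℝ[X]) (T : ℤ → ℝ[X]) (θ η : ℝ) {ι : Type} (v : ι → ℤ) : ℕ :=
  Nat.card {i : ι // v i ≠ 0 ∧ ¬ Asymp r N P T θ η (v i)}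

lemma asymp_mono (r N : ℕ) (hN : 1 ≤ N) (P : ℕ → ℝ[X]) (T : ℤ → ℝ[X]) (θ θ' η : ℝ) (hθ : θ' ≤ θ) (h : ℤ)
    (hA : Asymp r N P T θ η h) : Asymp r N P T θ' η h := by
  intro x hx
  obtain ⟨h1, h2⟩ := hA x hx
  exact ⟨h1.trans (Real.rpow_le_rpow_of_exponent_le (by exact_mod_cast hN) (by linarith)), h2⟩

lemma ev_pow (c θ : ℝ) (hθ : 0 < θ) : ∃ N₀ : ℕ, ∀ N : ℕ, N₀ ≤ N → c * (1 + Real.log N) ^ 2 ≤ (N : ℝ) ^ θ := by
  have h1 := (isLittleO_log_rpow_rpow_atTop (2 : ℝ) hθ).bound (show 0 < 1 / (4 * (|c| + 1)) by positivity)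
  have h2 := (tendsto_natCast_atTop_atTop (R := ℝ)).eventually h1
  obtain ⟨x0, hx0⟩ := Filter.eventually_atTop.1 h2
  refine ⟨x0 + 3, fun N hN => ?_⟩
  have h3 := hx0 N (by omega)
  have hN3 : (3 : ℝ) ≤ N := by exact_mod_cast (by omega : 3 ≤ N)
  have hlog : 1 ≤ Real.log (N : ℝ) := by
    rw [Real.le_log_iff_exp_le (by linarith)]
    linarith [Real.exp_one_lt_d9]
  rw [Real.rpow_two, Real.norm_of_nonneg (by positivity), Real.norm_of_nonneg (by positivity)] at h3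
  have h4 : (1 + Real.log (N : ℝ)) ^ 2 ≤ 4 * Real.log (N : ℝ) ^ 2 := by nlinarith
  have hc : c ≤ |c| + 1 := by linarith [le_abs_self c]
  have hc0 : 0 < |c| + 1 := by positivity
  calc c * (1 + Real.log (N : ℝ)) ^ 2 ≤ (|c| + 1) * (1 + Real.log (N : ℝ)) ^ 2 :=
        mul_le_mul_of_nonneg_right hc (by positivity)
    _ ≤ (|c| + 1) * (4 * Real.log (N : ℝ) ^ 2) := mul_le_mul_of_nonneg_left h4 hc0.le
    _ ≤ (|c| + 1) * (4 * (1 / (4 * (|c| + 1)) * (N : ℝ) ^ θ)) := by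
        apply mul_le_mul_of_nonneg_left _ hc0.le
        linarith
    _ = (N : ℝ) ^ θ := by field_simp

/-- Let `r ≥ 2`. There are polynomials `P_q` (`q ≥ 1`) and `T_z` (`z ≠ 0`) with the following properties.

(0) `P_q` is the density of `d_r(n) e(b n / q)`, `(b, q) = 1`; it has degree `r - 1`, leading coefficient
`κ_{r - 1}(q) / (r - 1)!`, and coefficients `O(q ^ (ε - 1))`. For `z ≠ 0` the series `G_z(u, v) = ∑ c_q(z) P_q(u) P_q(v)`
converges absolutely; `T_z(u) + T_z'(u) = G_z(u, u)`; `T_z` has degree `2 r - 2` and leading coefficient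
`𝔖_r(z) / ((r - 1)!) ^ 2`.

(1) Let `d ≥ 1`, `h ≥ 1`, `s ≥ 1`, `B` and `a ≠ 0` be fixed. There is `θ > 0` such that for every `0 < η ≤ θ` and all
integers `X ≤ Y ^ s` and `Y ≤ X ^ s` with a large product `N = X Y`: let `x i` (`i ∈ ι`) be an arbitrary finite family of
points of `ℤ ^ d` with coordinates of absolute value at most `B X` and `y j` (`j ∈ lam`) an arbitrary finite family of
points of `ℤ ^ d` with coordinates of absolute value at most `B Y`, whose additive energies of order `h` are at most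
`N ^ θ #ι ^ (2 h) / X ^ d` and `N ^ θ #lam ^ (2 h) / Y ^ d`, and let `f` and `g` be ARBITRARY functions on `ι` and `lam`
such that the shifts `z = f i + g j + a (x i · y j)` are at most `B N` in absolute value. Then for all the pairs `(i, j)`,
except for at most `N ^ (-θ) #ι #lam` of them, the shift `z` is zero or satisfies, for ALL `x ≤ N`:
`D_r(x; z) = ∑ G_z(log n, log(n + z)) + O(N ^ (1 - θ))` (the sum over `n ≤ x` with `n + z ≥ 1`) and, if
`|z| ≤ N ^ (1 - η)`, `D_r(x; z) = x T_z(log x) + O(N ^ (1 - η / 8))`, with implied constants `1`. -/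
theorem result (r : ℕ) (hr : 2 ≤ r) : ∃ (P : ℕ → ℝ[X]) (T : ℤ → ℝ[X]),
    (Density r P ∧ (∀ q, 1 ≤ q → (P q).natDegree = r - 1 ∧ (P q).leadingCoeff = κ (r - 1) q / ((r - 1).factorial : ℝ)) ∧
      ∀ ε : ℝ, 0 < ε → ∃ C : ℝ, ∀ q i : ℕ, 1 ≤ q → |(P q).coeff i| ≤ C * (q : ℝ) ^ (ε - 1)) ∧
    (∀ h : ℤ, h ≠ 0 → (∀ u v : ℝ, Summable (fun q : ℕ => (ram (q + 1) h : ℝ) * ((P (q + 1)).eval u * (P (q + 1)).eval v))) ∧
      (∀ u : ℝ, (T h).eval u + (derivative (T h)).eval u = G P h u u) ∧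
      (T h).natDegree = 2 * r - 2 ∧ (T h).leadingCoeff = 𝔖 r h / ((r - 1).factorial : ℝ) ^ 2) ∧
    ∀ (d h s B : ℕ) (a : ℤ), 1 ≤ d → 1 ≤ h → 1 ≤ s → a ≠ 0 → ∃ θ : ℝ, 0 < θ ∧ ∀ η : ℝ, 0 < η → η ≤ θ → ∃ N₀ : ℕ,
      ∀ X Y : ℕ, N₀ ≤ X * Y → X ≤ Y ^ s → Y ≤ X ^ s →
      ∀ (ι lam : Type) [Fintype ι] [Fintype lam] (x : ι → Fin d → ℤ) (y : lam → Fin d → ℤ) (f : ι → ℤ) (g : lam → ℤ),
      (∀ i k, |x i k| ≤ B * X) → (∀ j k, |y j k| ≤ B * Y) → (∀ p, |value a f g x y p| ≤ B * (X * Y)) →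
      (energy h x : ℝ) * X ^ d ≤ ((X : ℝ) * Y) ^ θ * (Fintype.card ι : ℝ) ^ (2 * h) →
      (energy h y : ℝ) * Y ^ d ≤ ((X : ℝ) * Y) ^ θ * (Fintype.card lam : ℝ) ^ (2 * h) →
      (exceptions r (X * Y) P T θ η (value a f g x y) : ℝ) ≤
        ((X : ℝ) * Y) ^ (-θ) * (Fintype.card ι * Fintype.card lam) := by
  classical
  obtain ⟨P, T, q1, q2, q3, -⟩ := Pool.Agent.Results.MP_122e00_nt.PowerSavingShifts.result r hr
  refine ⟨P, T, q1, q2, ?_⟩
  intro d h s B a hd hh hs ha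
  obtain ⟨θ₀, hθ₀, q4⟩ := q3 (2 * h ^ 2 * (s + 1)) B
  obtain ⟨c, hc, hb⟩ := Pool.Agent.W5h80.Bil.bil_energy d h s (B + 1) hd hh hs (by omega) a ha
  obtain ⟨θ, hθ⟩ : ∃ θ, θ = θ₀ / (4 * (s + 1)) := ⟨_, rfl⟩
  have hs0 : (0 : ℝ) < 4 * (s + 1) := by positivity
  have hθ0 : 0 < θ := by rw [hθ]; positivity
  have hθ1 : θ ≤ θ₀ := by
    rw [hθ]
    apply div_le_self hθ₀.le
    have : (0 : ℝ) ≤ s := Nat.cast_nonneg s
    linarith
  refine ⟨θ, hθ0, ?_⟩
  intro η hη hηθ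
  obtain ⟨n0, h0⟩ := q4 η hη (hηθ.trans hθ1)
  obtain ⟨n1, h1⟩ := ev_pow c (θ₀ / 2) (by linarith)
  refine ⟨n0 + n1 + 1, ?_⟩
  intro X Y hN hXY hYX ι lam _ _ x y f g hx hy hv hEx hEy
  have hXY0 : 0 < X * Y := by omega
  have hX : 1 ≤ X := Nat.pos_of_mul_pos_right hXY0
  have hY : 1 ≤ Y := Nat.pos_of_mul_pos_left hXY0
  obtain ⟨N, hNd⟩ : ∃ N : ℝ, N = (X : ℝ) * Y := ⟨_, rfl⟩
  have hN1 : 1 ≤ N := by rw [hNd]; exact_mod_cast hXY0
  have hN0 : 0 < N := by linarith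
  have hx' : ∀ i k, |x i k| ≤ ((B + 1 : ℕ) : ℤ) * X := by
    intro i k
    have := hx i k
    have h3 : (0 : ℤ) ≤ X := by positivity
    push_cast
    linarith
  have hy' : ∀ j k, |y j k| ≤ ((B + 1 : ℕ) : ℤ) * Y := by
    intro j k
    have := hy j k
    have h3 : (0 : ℤ) ≤ Y := by positivity
    push_cast
    linarith
  rw [← hNd] at hEx hEy ⊢
  have key := hb X Y hX hY hXY hYX ι lam x y f g hx' hy' (N ^ θ) (by positivity) hEx hEy
  have h5 := h1 (X * Y) (by omega)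
  push_cast at h5
  rw [← hNd] at h5 key
  have e1 : (N ^ θ) ^ (2 * (s + 1)) = N ^ (θ₀ / 2) := by
    rw [← Real.rpow_natCast, ← Real.rpow_mul hN0.le, hθ]
    congr 1
    push_cast
    field_simp
    ring
  have hE : (Pool.Agent.Results.MP_122e00_nt.PowerSavingShifts.energy (2 * h ^ 2 * (s + 1)) (value a f g x y) : ℝ) *
      ((X * Y : ℕ) : ℝ) ≤ ((X * Y : ℕ) : ℝ) ^ θ₀ * (Fintype.card (ι × lam) : ℝ) ^ (2 * (2 * h ^ 2 * (s + 1))) := by
    push_cast
    rw [← hNd]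
    have e2 : (Pool.Agent.Results.MP_122e00_nt.PowerSavingShifts.energy (2 * h ^ 2 * (s + 1)) (value a f g x y) : ℝ) =
        Pool.Agent.W5h80.Bil.EnZ (2 * h ^ 2 * (s + 1))
          (fun p : ι × lam => f p.1 + g p.2 + a * Pool.Agent.W5h80.Bil.dot (x p.1) (y p.2)) := rfl
    rw [e2]
    refine key.trans ?_
    apply mul_le_mul_of_nonneg_right _ (by positivity)
    rw [e1]
    calc c * N ^ (θ₀ / 2) * (1 + Real.log N) ^ 2 = N ^ (θ₀ / 2) * (c * (1 + Real.log N) ^ 2) := by ring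
      _ ≤ N ^ (θ₀ / 2) * N ^ (θ₀ / 2) := mul_le_mul_of_nonneg_left h5 (by positivity)
      _ = N ^ θ₀ := by
          rw [← Real.rpow_add hN0]
          congr 1
          ring
  have h6 := h0 (X * Y) (by omega) (ι × lam) (value a f g x y) (fun p => by push_cast; exact hv p) hE
  have h7 : (exceptions r (X * Y) P T θ η (value a f g x y) : ℝ) ≤ ((univ.filter (fun p : ι × lam =>
      value a f g x y p ≠ 0 ∧ ¬ Asymp r (X * Y) P T θ₀ η (value a f g x y p))).card : ℝ) := by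
    unfold exceptions
    rw [Nat.card_eq_fintype_card, Fintype.card_subtype]
    apply Nat.cast_le.2
    apply card_le_card
    intro p hp
    rw [mem_filter] at hp ⊢
    exact ⟨mem_univ _, hp.2.1, fun h8 => hp.2.2 (asymp_mono r (X * Y) (by omega) P T θ₀ θ η hθ1 _ h8)⟩
  refine h7.trans (h6.trans ?_)
  push_cast
  rw [← hNd, Fintype.card_prod]
  push_cast
  apply mul_le_mul_of_nonneg_right _ (by positivity)
  exact Real.rpow_le_rpow_of_exponent_le hN1 (by linarith)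

end Pool.Agent.Results.MP_122e00_nt.BilinearShifts
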