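import Pool.Agent.W5h23.SF.Main

/-!
# Correlations of the divisor functions for almost all terms of every convex sequence of shifts

The main terms and the notation are those of the starting result `PowerSavingShifts`. New: a threshold `N ^ κ` for the
additive energy whose exponent does not depend on the order of the energy (`Pool.Agent.W5h23.SF.Pow`), and an elementary
proof of the bound of Konyagin and Garaev for the energies of convex sequences (`Pool.Agent.W5h23.Conv`).
-/

set_option autoImplicit false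

namespace Pool.Agent.Results.MP_122e00_nt.ConvexShifts

open Finset Polynomial
open Pool.Agent.Results.MP_122e00_nt.PowerSavingShifts
open Pool.Agent.W5h23.SF.Main (MainTerms ConvexOrConcave exists_main energy_conv count_fin)

open Classical in
/-- **Correlations of the divisor functions for almost all terms of every strictly convex sequence of shifts, with a power
saving.** Let `r ≥ 2`. There are polynomials `P_q` (`q ≥ 1`) and `T_h` (`h ≠ 0`) as in `MainTerms` and `κ > 0` with the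
following properties.

(1) For all `p` and `B` there is `θ > 0` such that for every `0 < η ≤ θ` and every large `N`: for every finite family `v`
of integers of size at most `B N` whose additive energy of order `p` is at most `N ^ κ · #ι ^ (2 p) / N`, all but
at most `N ^ (-θ) · #ι` members `h = v i ≠ 0` satisfy, for ALL `x ≤ N`, `D_r(x; h) = ∑ G_h(log n, log(n + h)) + O(N ^ (1 - θ))`
(the sum over `n ≤ x` with `n + h ≥ 1`) and, if `|h| ≤ N ^ (1 - η)`, `D_r(x; h) = x T_h(log x) + O(N ^ (1 - η / 8))`, with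
implied constants `1`. (The exponent `κ` does not depend on `p`.)

(2) For all `B` there is `θ > 0` such that for every `0 < η ≤ θ`, every large `N`, every `n ≥ N ^ (1 / 2 - κ / 8)` and EVERY
sequence `a 0, …, a (n - 1)` of integers of size at most `B N` whose differences `a (i + 1) - a i` are strictly monotone,
all but at most `N ^ (-θ) n` of the shifts `h = a i ≠ 0` satisfy this. -/
theorem result (r : ℕ) (hr : 2 ≤ r) : ∃ (P : ℕ → ℝ[X]) (T : ℤ → ℝ[X]) (κ : ℝ), MainTerms r P T ∧ 0 < κ ∧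
    (∀ p B : ℕ, ∃ θ : ℝ, 0 < θ ∧ ∀ η : ℝ, 0 < η → η ≤ θ → ∃ N₀ : ℕ, ∀ N : ℕ, N₀ ≤ N → ∀ (ι : Type) [Fintype ι] (v : ι → ℤ),
      (∀ i, |v i| ≤ B * N) → (energy p v : ℝ) * N ≤ (N : ℝ) ^ κ * (Fintype.card ι : ℝ) ^ (2 * p) →
      ((univ.filter (fun i : ι => v i ≠ 0 ∧ ¬ Asymp r N P T θ η (v i))).card : ℝ) ≤ (N : ℝ) ^ (-θ) * Fintype.card ι) ∧
    (∀ B : ℕ, ∃ θ : ℝ, 0 < θ ∧ ∀ η : ℝ, 0 < η → η ≤ θ → ∃ N₀ : ℕ, ∀ N : ℕ, N₀ ≤ N →
      ∀ n : ℕ, (N : ℝ) ^ (1 / 2 - κ / 8) ≤ n → ∀ a : ℕ → ℤ, ConvexOrConcave n a → (∀ i < n, |a i| ≤ B * N) →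
      (((range n).filter (fun i => a i ≠ 0 ∧ ¬ Asymp r N P T θ η (a i))).card : ℝ) ≤ (N : ℝ) ^ (-θ) * n) := by
  obtain ⟨P, T, κ, hPT, hκ, hmain⟩ := exists_main r hr
  refine ⟨P, T, κ, hPT, hκ, hmain, fun B => ?_⟩
  obtain ⟨p, N1, h1⟩ := energy_conv κ hκ
  obtain ⟨θ, hθ, h2⟩ := hmain p B
  refine ⟨θ, hθ, fun η hη hηθ => ?_⟩
  obtain ⟨N2, h3⟩ := h2 η hη hηθ
  refine ⟨N1 + N2, fun N hN n hn a ha hb => ?_⟩
  have hE := h1 N (by omega) n hn a ha
  have key := h3 N (by omega) (Fin n) (fun i : Fin n => a i) (fun i => hb i i.2) (by rw [Fintype.card_fin]; exact hE)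
  rw [Fintype.card_fin] at key
  refine le_trans ?_ key
  exact_mod_cast count_fin n a (fun h => h ≠ 0 ∧ ¬ Asymp r N P T θ η h)

end Pool.Agent.Results.MP_122e00_nt.ConvexShifts
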