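import Pool.Agent.W5h23.SF.Main
import Pool.Agent.W5h23.HG.Fam

/-!
# Correlations of the divisor functions for almost all shifts along the cliques of hypergraphs

The shifts are `h = a x_1 ⋯ x_r v(i) b + F_1 + ... + F_r + G(x, i) + H(x, b)`, `r ≥ 1`, `F_j = F_j(x, i, b)` not depending on
`x_j`: each of the functions `F_j`, `G`, `H` is an ARBITRARY integral function of all the variables BUT ONE. The variables run
over the set `Ω` of the cliques of an ARBITRARY `(r + 2)`-partite `(r + 1)`-uniform hypergraph (the triangles of a graph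
for `r = 1`) of density at least `N ^ (-δ)` on sets `A_j`, `S`, `B`; the family `v` may be thin (for example the values of a
polynomial). For almost all cliques, with a power saving, the correlation `∑_{n ≤ x} d_k(n) d_k(n + h)` has the expected
asymptotic behaviour for all `x ≤ N`, with a power saving. Examples: `h = (x + y + z) ^ 3`, or `h = x y z + F(x, y) + G(x, z) +
H(y, z)` with arbitrary `F`, `G`, `H`, for almost all triangles `(x, y, z)` of an arbitrary graph with many triangles.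

The main terms and the notation are those of the starting result `PowerSavingShifts`. The criterion with a threshold for the
additive energy that does not depend on its order is `Pool.Agent.W5h23.SF.Main.exists_main`. New: the additive energies of
the families of shifts above, of a sufficiently large order, are minimal up to `N ^ κ` (`Pool.Agent.W5h23.HG.energy_clq`; the
inequality of Cauchy and Schwarz, the divisor bound, the large sieve, and a major arc count).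
-/

set_option autoImplicit false

namespace Pool.Agent.Results.MP_122e00_nt.HypergraphShifts

open Finset Polynomial
open Pool.Agent.Results.MP_122e00_nt.PowerSavingShifts (Asymp)
open Pool.Agent.W5h23.SF.Main (MainTerms exists_main)

/-- The additive energy of order `h` of a finite family `v i` (`i ∈ ι`) of integers: the number of solutions of
`v (a 1) + ... + v (a h) = v (b 1) + ... + v (b h)`. -/
noncomputable def energy (h : ℕ) {ι : Type} (v : ι → ℤ) : ℕ :=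
  Nat.card {q : (Fin h → ι) × (Fin h → ι) // ∑ j, v (q.1 j) = ∑ j, v (q.2 j)}

/-- `f` does not depend on the variable number `j` -/
def IndepOf {r : ℕ} {β : Type} (j : Fin r) (f : (Fin r → ℕ) → β) : Prop := ∀ x t, f (Function.update x j t) = f x

/-- the value `a x_1 ⋯ x_r v(i) b + ∑ F_j(x, i, b) + G(x, i) + H(x, b)` at `t = (x, i, b)` -/
def value {r : ℕ} {ι : Type} (a : ℤ) (v : ι → ℤ) (F : Fin r → (Fin r → ℕ) → ι → ℕ → ℤ)
    (G : (Fin r → ℕ) → ι → ℤ) (H : (Fin r → ℕ) → ℕ → ℤ) (t : (Fin r → ℕ) × ι × ℕ) : ℤ :=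
  a * (∏ j, (t.1 j : ℤ)) * v t.2.1 * t.2.2 + ∑ j, F j t.1 t.2.1 t.2.2 + G t.1 t.2.1 + H t.1 t.2.2

/-- `t = (x, i, b)` is a clique: `x_j ∈ A_j`, `b ∈ B`, and the relations `P_j`, `P'`, `P''` hold -/
def Clique {r : ℕ} {ι : Type} (A : Fin r → Finset ℕ) (B : Finset ℕ) (P : Fin r → (Fin r → ℕ) → ι → ℕ → Prop)
    (P' : (Fin r → ℕ) → ι → Prop) (P'' : (Fin r → ℕ) → ℕ → Prop) (t : (Fin r → ℕ) × ι × ℕ) : Prop :=
  (∀ j, t.1 j ∈ A j) ∧ t.2.2 ∈ B ∧ (∀ j, P j t.1 t.2.1 t.2.2) ∧ P' t.1 t.2.1 ∧ P'' t.1 t.2.2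

/-- The sizes: `B ⊆ [0, X]`, `A_j ⊆ [0, U_j]`; `U_j`, `X`, `Y` are at most `N ^ R`, and `X`, `Y`, `|A_j|` are at least
`N ^ (1 / s)`. -/
def Sizes (N s R : ℕ) {r : ℕ} (X Y : ℕ) (B : Finset ℕ) (A : Fin r → Finset ℕ) (U : Fin r → ℕ) : Prop :=
  (∀ b ∈ B, b ≤ X) ∧ (∀ j, ∀ x ∈ A j, x ≤ U j) ∧ (∀ j, U j ≤ N ^ R) ∧ X ≤ N ^ R ∧ Y ≤ N ^ R ∧ N ≤ X ^ s ∧ N ≤ Y ^ s ∧
    ∀ j, N ≤ (A j).card ^ s

open Classical in
/-- For ARBITRARY relations `P_j`, `P'`, `P''` and ARBITRARY integral functions `F_j`, `G`, `H`, each of all the variables but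
one, such that the set `Ω` of the cliques has at least `N ^ (-δ) |S| |B| ∏ |A_j|` elements and the values are at most `C N` in
absolute value on `Ω`: for all but at most `N ^ (-θ) |Ω|` elements of `Ω` the value is zero or satisfies `Asymp`. -/
def AlmostAll (k N C : ℕ) (P : ℕ → ℝ[X]) (T : ℤ → ℝ[X]) (θ δ η : ℝ) (a : ℤ) {ι : Type} (S : Finset ι) (v : ι → ℤ)
    (B : Finset ℕ) {r : ℕ} (A : Fin r → Finset ℕ) : Prop :=
  ∀ (Q : Fin r → (Fin r → ℕ) → ι → ℕ → Prop) (Q' : (Fin r → ℕ) → ι → Prop) (Q'' : (Fin r → ℕ) → ℕ → Prop)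
    (F : Fin r → (Fin r → ℕ) → ι → ℕ → ℤ) (G : (Fin r → ℕ) → ι → ℤ) (H : (Fin r → ℕ) → ℕ → ℤ),
    (∀ j, IndepOf j (Q j)) → (∀ j, IndepOf j (F j)) →
    ∀ Ω : Finset ((Fin r → ℕ) × ι × ℕ), (∀ t, t ∈ Ω ↔ t.2.1 ∈ S ∧ Clique A B Q Q' Q'' t) →
    (S.card : ℝ) * B.card * (∏ j, ((A j).card : ℝ)) * (N : ℝ) ^ (-δ) ≤ Ω.card →
    (∀ t ∈ Ω, |value a v F G H t| ≤ C * N) →
    ((Ω.filter fun t => value a v F G H t ≠ 0 ∧ ¬ Asymp k N P T θ η (value a v F G H t)).card : ℝ) ≤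
      (N : ℝ) ^ (-θ) * Ω.card

/-- from the energies to the correlations -/
theorem almostAll_of (k N C p : ℕ) (P : ℕ → ℝ[X]) (T : ℤ → ℝ[X]) (κ θ δ η : ℝ) (a : ℤ) {ι : Type} (S : Finset ι)
    (v : ι → ℤ) (B : Finset ℕ) {r : ℕ} (A : Fin r → Finset ℕ)
    (hmain : ∀ (ι : Type) [Fintype ι] (v : ι → ℤ), (∀ i, |v i| ≤ C * N) →
      (energy p v : ℝ) * N ≤ (N : ℝ) ^ κ * (Fintype.card ι : ℝ) ^ (2 * p) →
      (Nat.card {i : ι // v i ≠ 0 ∧ ¬ Asymp k N P T θ η (v i)} : ℝ) ≤ (N : ℝ) ^ (-θ) * Fintype.card ι)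
    (hE : Pool.Agent.W5h23.HG.CEn κ δ p N a S v B A) : AlmostAll k N C P T θ δ η a S v B A := by
  classical
  intro Q Q' Q'' F G H hQ hF Ω hΩ hc hval
  have h1 := hE Q Q' Q'' F G H hQ hF Ω hΩ hc
  have h2 := hmain {t // t ∈ Ω} (fun t => value a v F G H t) (fun t => hval t t.2) (by
    rw [Fintype.card_coe]
    exact h1)
  rw [Fintype.card_coe] at h2
  refine le_trans (Nat.cast_le.2 ?_) h2
  rw [Nat.card_eq_fintype_card, Fintype.card_subtype]
  have h3 : Ω.filter (fun t => value a v F G H t ≠ 0 ∧ ¬ Asymp k N P T θ η (value a v F G H t)) ⊆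
      (univ.filter (fun t : {t // t ∈ Ω} => value a v F G H t ≠ 0 ∧ ¬ Asymp k N P T θ η (value a v F G H t))).image
        (fun t : {t // t ∈ Ω} => t.1) := by
    intro t ht
    rw [mem_filter] at ht
    rw [mem_image]
    exact ⟨⟨t, ht.1⟩, by rw [mem_filter]; exact ⟨mem_univ _, ht.2⟩, rfl⟩
  exact (card_le_card h3).trans card_image_le

/-- Let `k ≥ 2`. There are polynomials `P_q` (`q ≥ 1`) and `T_h` (`h ≠ 0`) with the properties `MainTerms`, such that the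
following holds for all `r ≥ 1`, `s ≥ 1`, `R`, `C` and `a ≠ 0`.

(1) For each `e ≥ 1` there are `θ, δ > 0` such that for all `0 < η ≤ θ` and all large `N`: if `v i`, `i ∈ S`, is a family of
integers with `|v i| ≤ Y`, the sets `B ⊆ [0, X]`, `A_j ⊆ [0, U_j]` have sizes as in `Sizes`,
`U_1 ⋯ U_r X Y ≥ N ^ (1 - δ)`, and `E_e(v) U_1 ⋯ U_r X Y ≤ N ^ δ |S| ^ (2 e) |B| |A_1| ⋯ |A_r|`, then `AlmostAll`: for ARBITRARY
hypergraphs of density `≥ N ^ (-δ)` and ARBITRARY functions of all the variables but one, all but at most `N ^ (-θ) |Ω|` of the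
shifts `h`, `|h| ≤ C N`, are `0` or satisfy, for ALL `x ≤ N`, `D_k(x; h) = ∑ G_h(log n, log(n + h)) + O(N ^ (1 - θ))` (the sum
over `n ≤ x` with `n + h ≥ 1`) and, if `|h| ≤ N ^ (1 - η)`, `D_k(x; h) = x T_h(log x) + O(N ^ (1 - η / 8))`, with implied
constants `1`.

(2) For each polynomial `f` of degree `d ≥ 1` with integral coefficients the same holds for the family `f(m)`, `m ∈ S`, where
`S` is any set of at least `M ^ (1 - δ)` natural numbers up to `M`, with `Y = M ^ d`, if `U_1 ⋯ U_r X M ^ d ≥ N ^ (1 - δ)` and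
`U_1 ⋯ U_r X ≤ N ^ δ |B| |A_1| ⋯ |A_r|`. (With `f(m) = m` this is about the shifts `a x_1 ⋯ x_r m b + ...`.) -/
theorem result (k : ℕ) (hk : 2 ≤ k) : ∃ (P : ℕ → ℝ[X]) (T : ℤ → ℝ[X]), MainTerms k P T ∧
    ∀ (r s R C : ℕ) (a : ℤ), 1 ≤ r → 1 ≤ s → a ≠ 0 →
    (∀ e : ℕ, 1 ≤ e → ∃ θ δ : ℝ, 0 < θ ∧ 0 < δ ∧ ∀ η : ℝ, 0 < η → η ≤ θ → ∃ N₀ : ℕ, ∀ N : ℕ, N₀ ≤ N →
      ∀ (ι : Type) (S : Finset ι) (v : ι → ℤ) (X Y : ℕ) (B : Finset ℕ) (A : Fin r → Finset ℕ) (U : Fin r → ℕ),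
      (∀ i ∈ S, |v i| ≤ Y) → Sizes N s R X Y B A U → (N : ℝ) ^ (1 - δ) ≤ (∏ j, (U j : ℝ)) * X * Y →
      (energy e (fun i : {i // i ∈ S} => v i) : ℝ) * ((∏ j, (U j : ℝ)) * X * Y) ≤
        (N : ℝ) ^ δ * ((S.card : ℝ) ^ (2 * e) * B.card * ∏ j, ((A j).card : ℝ)) →
      AlmostAll k N C P T θ δ η a S v B A) ∧
    (∀ f : ℤ[X], 1 ≤ f.natDegree → ∃ θ δ : ℝ, 0 < θ ∧ 0 < δ ∧ ∀ η : ℝ, 0 < η → η ≤ θ → ∃ N₀ : ℕ, ∀ N : ℕ, N₀ ≤ N →
      ∀ (M : ℕ) (S : Finset ℕ) (X : ℕ) (B : Finset ℕ) (A : Fin r → Finset ℕ) (U : Fin r → ℕ),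
      S ⊆ Icc 1 M → (M : ℝ) ^ (1 - δ) ≤ S.card → Sizes N s R X (M ^ f.natDegree) B A U →
      (N : ℝ) ^ (1 - δ) ≤ (∏ j, (U j : ℝ)) * X * ((M ^ f.natDegree : ℕ) : ℝ) →
      (∏ j, (U j : ℝ)) * X ≤ (N : ℝ) ^ δ * (B.card * ∏ j, ((A j).card : ℝ)) →
      AlmostAll k N C P T θ δ η a S (fun m => f.eval (m : ℤ)) B A) := by
  classical
  obtain ⟨P, T, κ, hPT, hκ, hmain⟩ := exists_main k hk
  refine ⟨P, T, hPT, fun r s R C a _ hs ha => ⟨fun e he => ?_, fun f hf => ?_⟩⟩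
  · obtain ⟨p, δ, _, hδ, N₁, h1⟩ := Pool.Agent.W5h23.HG.energyS κ hκ r e s R he hs a ha
    obtain ⟨θ, hθ, h2⟩ := hmain p C
    refine ⟨θ, δ, hθ, hδ, fun η hη hηθ => ?_⟩
    obtain ⟨N₂, h3⟩ := h2 η hη hηθ
    refine ⟨N₁ + N₂, fun N hN ι S v X Y B A U hv hsz hsize hE => ?_⟩
    refine almostAll_of k N C p P T κ θ δ η a S v B A (fun ι _ v hv hE => ?_)
      (h1 N (by omega) ι S v X Y B A U hv hsz hsize hE)
    rw [Nat.card_eq_fintype_card, Fintype.card_subtype]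
    exact h3 N (by omega) ι v hv hE
  · obtain ⟨p, δ, _, hδ, N₁, h1⟩ := Pool.Agent.W5h23.HG.energy_polyS κ hκ r s R hs a ha f hf
    obtain ⟨θ, hθ, h2⟩ := hmain p C
    refine ⟨θ, δ, hθ, hδ, fun η hη hηθ => ?_⟩
    obtain ⟨N₂, h3⟩ := h2 η hη hηθ
    refine ⟨N₁ + N₂, fun N hN M S X B A U hS hSc hsz hsize hd => ?_⟩
    refine almostAll_of k N C p P T κ θ δ η a S _ B A (fun ι _ v hv hE => ?_)
      (h1 N (by omega) M S X B A U hS hSc hsz hsize hd)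
    rw [Nat.card_eq_fintype_card, Fintype.card_subtype]
    exact h3 N (by omega) ι v hv hE

end Pool.Agent.Results.MP_122e00_nt.HypergraphShifts
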