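import Pool.Agent.W5h23.SF.Main

/-!
# Correlations of the divisor functions for almost all shifts `c + ⌊f(m)⌋`, `f` smooth

The main terms and the notation are those of the starting result `PowerSavingShifts`; the energy of the integer parts of
smooth sequences (van der Corput's method) is `Pool.Agent.W5h23.SF`.
-/

set_option autoImplicit false

namespace Pool.Agent.Results.MP_122e00_nt.SmoothShifts

open Finset Polynomial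
open Pool.Agent.Results.MP_122e00_nt.PowerSavingShifts
open Pool.Agent.W5h23.SF.Main (MainTerms exists_main)

/-- `f` varies on `[M, 2 M]` like a function of size `A` of the variable `t / M`: the functions `D j` are the successive
derivatives of `f = D 0`, and `c A ≤ |f⁽ʲ⁾(t)| M ^ j ≤ C A` for `1 ≤ j ≤ K`. -/
def Smooth (K : ℕ) (c C M A : ℝ) (f : ℝ → ℝ) : Prop :=
  ∃ D : ℕ → ℝ → ℝ, D 0 = f ∧ (∀ j ≤ K, ∀ t ∈ Set.Icc M (2 * M), HasDerivAt (D j) (D (j + 1) t) t) ∧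
    ∀ j, 1 ≤ j → j ≤ K → ∀ t ∈ Set.Icc M (2 * M), c * A ≤ |D j t| * M ^ j ∧ |D j t| * M ^ j ≤ C * A

open Classical in
/-- The family `c + ⌊f(m)⌋`, `m ∈ S`, of shifts is good: all but at most `N ^ (-θ) #S` of its members `h ≠ 0` satisfy the
two asymptotic formulas. -/
def Good (r N : ℕ) (P : ℕ → ℝ[X]) (T : ℤ → ℝ[X]) (θ η : ℝ) (S : Finset ℕ) (c : ℤ) (f : ℝ → ℝ) : Prop :=
  ((S.filter (fun m : ℕ => c + ⌊f m⌋ ≠ 0 ∧ ¬ Asymp r N P T θ η (c + ⌊f m⌋))).card : ℝ) ≤ (N : ℝ) ^ (-θ) * S.card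

theorem asymp_mono (r N : ℕ) (P : ℕ → ℝ[X]) (T : ℤ → ℝ[X]) (θ θ' η : ℝ) (h : ℤ) (hN : 1 ≤ N) (hθ : θ' ≤ θ)
    (hg : Asymp r N P T θ η h) : Asymp r N P T θ' η h := by
  intro x hx
  have hN1 : (1 : ℝ) ≤ N := by exact_mod_cast hN
  exact ⟨(hg x hx).1.trans (Real.rpow_le_rpow_of_exponent_le hN1 (by linarith)), (hg x hx).2⟩

/-- the statement for one size of the derivatives -/
def Holds (r : ℕ) (P : ℕ → ℝ[X]) (T : ℤ → ℝ[X]) : Prop :=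
  ∀ (Q : ℕ) (c0 C0 : ℝ), 1 ≤ Q → 0 < c0 → 1 ≤ C0 → ∀ B : ℕ, ∃ θ : ℝ, 0 < θ ∧ ∀ η : ℝ, 0 < η → η ≤ θ →
    ∃ N₀ : ℕ, ∀ N : ℕ, N₀ ≤ N → ∀ (M : ℕ) (A : ℝ) (f : ℝ → ℝ), (N : ℝ) ^ (1 - θ) ≤ A → A ≤ (M : ℝ) ^ Q →
    Smooth (Q + 2) c0 C0 M A f → ∀ S : Finset ℕ, S ⊆ Ico M (2 * M) → (M : ℝ) ≤ (N : ℝ) ^ θ * S.card →
    ∀ c : ℤ, (∀ m ∈ S, |c + ⌊f m⌋| ≤ B * N) → Good r N P T θ η S c f

theorem holds (r : ℕ) (hr : 2 ≤ r) : ∃ (P : ℕ → ℝ[X]) (T : ℤ → ℝ[X]), MainTerms r P T ∧ Holds r P T := by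
  classical
  obtain ⟨P, T, κ, hPT, hκ, hmain⟩ := exists_main r hr
  refine ⟨P, T, hPT, ?_⟩
  intro Q c0 C0 hQ hc0 hC0 B
  obtain ⟨p, hp, hen⟩ := Pool.Agent.W5h23.SF.energy_pow Q hQ c0 C0 hc0 hC0
  obtain ⟨δ, hδ⟩ : ∃ δ : ℝ, δ = min (κ / (2 * p + 2)) 1 := ⟨_, rfl⟩
  have hδ0 : 0 < δ := by rw [hδ]; positivity
  have hδκ : δ * (2 * p + 2) ≤ κ := by
    have : δ ≤ κ / (2 * p + 2) := by rw [hδ]; exact min_le_left _ _
    rwa [le_div_iff₀ (by positivity)] at this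
  have hδ1 : δ ≤ 1 := by rw [hδ]; exact min_le_right _ _
  obtain ⟨θ₁, hθ₁, h1⟩ := hmain p B
  obtain ⟨N1, hN1⟩ := hen δ hδ0
  obtain ⟨θ, hθ⟩ : ∃ θ : ℝ, θ = min θ₁ δ := ⟨_, rfl⟩
  have hθ0 : 0 < θ := by rw [hθ]; positivity
  have hθθ : θ ≤ θ₁ := by rw [hθ]; exact min_le_left _ _
  have hθδ : θ ≤ δ := by rw [hθ]; exact min_le_right _ _
  refine ⟨θ, hθ0, fun η hη hηθ => ?_⟩
  obtain ⟨N2, h2⟩ := h1 η hη (hηθ.trans hθθ)
  refine ⟨N1 + N2 + 1, fun N hN M A f hA hAQ hf S hS hcard c hc => ?_⟩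
  have hN1' : 1 ≤ N := by omega
  have hNr : (1 : ℝ) ≤ N := by exact_mod_cast hN1'
  have hN0 : (0 : ℝ) < N := by linarith
  have hA1 : 1 ≤ A := (Real.one_le_rpow hNr (by linarith)).trans hA
  have hM : 1 ≤ M := by
    rcases Nat.eq_zero_or_pos M with h | h
    · subst h
      rw [Nat.cast_zero, zero_pow (by omega)] at hAQ
      linarith
    · exact h
  have hpow : (N : ℝ) ^ θ ≤ (N : ℝ) ^ δ := Real.rpow_le_rpow_of_exponent_le hNr hθδ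
  have hNA : (N : ℝ) ≤ (N : ℝ) ^ δ * A := by
    calc (N : ℝ) = (N : ℝ) ^ θ * (N : ℝ) ^ (1 - θ) := by
          rw [← Real.rpow_add hN0, show θ + (1 - θ) = 1 by ring, Real.rpow_one]
      _ ≤ _ := mul_le_mul hpow hA (by positivity) (by positivity)
  have hMS : (M : ℝ) ≤ (N : ℝ) ^ δ * S.card := hcard.trans (mul_le_mul_of_nonneg_right hpow (Nat.cast_nonneg _))
  have hE := hN1 M N A f (by omega) hM hA1 hAQ hNA hf S hS hMS c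
  have key := h2 N (by omega) {m // m ∈ S} (fun m : {m // m ∈ S} => c + ⌊f ((m : ℕ) : ℝ)⌋) (fun m => hc m m.2)
    (hE.trans (mul_le_mul_of_nonneg_right (Real.rpow_le_rpow_of_exponent_le hNr hδκ) (by positivity)))
  have hcS : (Fintype.card {m // m ∈ S} : ℝ) = S.card := by simp
  rw [hcS] at key
  have hcnt : (S.filter (fun m : ℕ => c + ⌊f m⌋ ≠ 0 ∧ ¬ Asymp r N P T θ η (c + ⌊f m⌋))).card ≤
      (univ.filter (fun m : {m // m ∈ S} => c + ⌊f ((m : ℕ) : ℝ)⌋ ≠ 0 ∧ ¬ Asymp r N P T θ₁ η (c + ⌊f ((m : ℕ) : ℝ)⌋))).card := by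
    have h : S.filter (fun m : ℕ => c + ⌊f m⌋ ≠ 0 ∧ ¬ Asymp r N P T θ η (c + ⌊f m⌋)) ⊆
        (univ.filter (fun m : {m // m ∈ S} => c + ⌊f ((m : ℕ) : ℝ)⌋ ≠ 0 ∧
          ¬ Asymp r N P T θ₁ η (c + ⌊f ((m : ℕ) : ℝ)⌋))).image (fun m : {m // m ∈ S} => (m : ℕ)) := by
      intro m hm
      rw [mem_filter] at hm
      rw [mem_image]
      refine ⟨⟨m, hm.1⟩, mem_filter.2 ⟨mem_univ _, hm.2.1, fun hg => hm.2.2 ?_⟩, rfl⟩
      exact asymp_mono r N P T θ₁ θ η _ hN1' hθθ hg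
    exact (card_le_card h).trans card_image_le
  unfold Good
  calc _ ≤ ((univ.filter (fun m : {m // m ∈ S} => c + ⌊f ((m : ℕ) : ℝ)⌋ ≠ 0 ∧
          ¬ Asymp r N P T θ₁ η (c + ⌊f ((m : ℕ) : ℝ)⌋))).card : ℝ) := by exact_mod_cast hcnt
    _ ≤ (N : ℝ) ^ (-θ₁) * S.card := key
    _ ≤ _ := mul_le_mul_of_nonneg_right (Real.rpow_le_rpow_of_exponent_le hNr (by linarith)) (Nat.cast_nonneg _)

/-- **Correlations of the divisor functions for almost all shifts of the form `c + ⌊f(m)⌋`, with a power saving.** Let `r ≥ 2`.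
There are polynomials `P_q` (`q ≥ 1`) and `T_h` (`h ≠ 0`) as in `MainTerms` with the following properties.

(1) For all `Q ≥ 1`, `c0 > 0`, `C0 ≥ 1` and `B` there is `θ > 0` such that for every `0 < η ≤ θ` and every large `N`: for
every function `f` with `c0 A ≤ |f⁽ʲ⁾(t)| M ^ j ≤ C0 A` for `1 ≤ j ≤ Q + 2` and `M ≤ t ≤ 2 M`, where
`N ^ (1 - θ) ≤ A ≤ M ^ Q`, EVERY set `S ⊆ [M, 2 M)` with at least `N ^ (-θ) M` elements and every integer `c` such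
that the integers `h = c + ⌊f(m)⌋`, `m ∈ S`, are at most `B N` in absolute value, all but at most `N ^ (-θ) #S` of the
`m ∈ S` with `h ≠ 0` satisfy, for ALL `x ≤ N`, `D_r(x; h) = ∑ G_h(log n, log(n + h)) + O(N ^ (1 - θ))` and, if
`|h| ≤ N ^ (1 - η)`, `D_r(x; h) = x T_h(log x) + O(N ^ (1 - η / 8))`, with implied constants `1`. (`M` can be as small as
`N ^ ((1 - θ) / Q)`, and `Q` is arbitrary.)

(2) In particular for the shifts `c + ⌊α m ^ s⌋`, where `s` is any real number except `0`, `1`, `2`, … and `α` is any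
real number with `N ^ (1 - θ) ≤ |α| M ^ s ≤ M ^ Q` (for example `⌊m ^ s⌋` and `⌊x / m⌋`),

(3) and for the shifts `c + ⌊α log m⌋`, `N ^ (1 - θ) ≤ |α| ≤ M ^ Q`. -/
theorem result (r : ℕ) (hr : 2 ≤ r) : ∃ (P : ℕ → ℝ[X]) (T : ℤ → ℝ[X]), MainTerms r P T ∧
    (∀ (Q : ℕ) (c0 C0 : ℝ), 1 ≤ Q → 0 < c0 → 1 ≤ C0 → ∀ B : ℕ, ∃ θ : ℝ, 0 < θ ∧ ∀ η : ℝ, 0 < η → η ≤ θ →
      ∃ N₀ : ℕ, ∀ N : ℕ, N₀ ≤ N → ∀ (M : ℕ) (A : ℝ) (f : ℝ → ℝ), (N : ℝ) ^ (1 - θ) ≤ A → A ≤ (M : ℝ) ^ Q →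
      Smooth (Q + 2) c0 C0 M A f → ∀ S : Finset ℕ, S ⊆ Ico M (2 * M) → (M : ℝ) ≤ (N : ℝ) ^ θ * S.card →
      ∀ c : ℤ, (∀ m ∈ S, |c + ⌊f m⌋| ≤ B * N) → Good r N P T θ η S c f) ∧
    (∀ s : ℝ, (∀ k : ℕ, s ≠ k) → ∀ Q B : ℕ, ∃ θ : ℝ, 0 < θ ∧ ∀ η : ℝ, 0 < η → η ≤ θ →
      ∃ N₀ : ℕ, ∀ N : ℕ, N₀ ≤ N → ∀ (M : ℕ) (α : ℝ), (N : ℝ) ^ (1 - θ) ≤ |α| * (M : ℝ) ^ s →
      |α| * (M : ℝ) ^ s ≤ (M : ℝ) ^ Q → ∀ S : Finset ℕ, S ⊆ Ico M (2 * M) → (M : ℝ) ≤ (N : ℝ) ^ θ * S.card →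
      ∀ c : ℤ, (∀ m ∈ S, |c + ⌊α * (m : ℝ) ^ s⌋| ≤ B * N) → Good r N P T θ η S c (fun t => α * t ^ s)) ∧
    (∀ Q B : ℕ, ∃ θ : ℝ, 0 < θ ∧ ∀ η : ℝ, 0 < η → η ≤ θ →
      ∃ N₀ : ℕ, ∀ N : ℕ, N₀ ≤ N → ∀ (M : ℕ) (α : ℝ), (N : ℝ) ^ (1 - θ) ≤ |α| → |α| ≤ (M : ℝ) ^ Q →
      ∀ S : Finset ℕ, S ⊆ Ico M (2 * M) → (M : ℝ) ≤ (N : ℝ) ^ θ * S.card →
      ∀ c : ℤ, (∀ m ∈ S, |c + ⌊α * Real.log m⌋| ≤ B * N) → Good r N P T θ η S c (fun t => α * Real.log t)) := by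
  obtain ⟨P, T, hPT, hH⟩ := holds r hr
  refine ⟨P, T, hPT, hH, ?_, ?_⟩
  · intro s hs Q B
    obtain ⟨c0, C0, hc0, hC0, hsm⟩ := Pool.Agent.W5h23.SF.smooth_rpow s hs (Q + 1 + 2)
    obtain ⟨θ, hθ, h⟩ := hH (Q + 1) c0 C0 (by omega) hc0 hC0 B
    refine ⟨θ, hθ, fun η hη hηθ => ?_⟩
    obtain ⟨N₀, h1⟩ := h η hη hηθ
    refine ⟨N₀ + 1, fun N hN M α hA hAQ S hS hcard c hc => ?_⟩
    have hN0 : (0 : ℝ) < N := by exact_mod_cast (by omega : 0 < N)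
    have hpos : 0 < |α| * (M : ℝ) ^ s := (Real.rpow_pos_of_pos hN0 _).trans_le hA
    have hα : α ≠ 0 := by
      rintro rfl
      rw [abs_zero, zero_mul] at hpos
      exact lt_irrefl _ hpos
    have hM : 1 ≤ M := by
      rcases Nat.eq_zero_or_pos M with h0 | h0
      · subst h0
        exfalso
        have hs0 : s ≠ 0 := by simpa using hs 0
        rw [Nat.cast_zero, Real.zero_rpow hs0, mul_zero] at hpos
        exact lt_irrefl _ hpos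
      · exact h0
    have hM1 : (1 : ℝ) ≤ M := by exact_mod_cast hM
    have hA2 : |α| * (M : ℝ) ^ s ≤ (M : ℝ) ^ (Q + 1) := hAQ.trans (pow_le_pow_right₀ hM1 (by omega))
    exact h1 N (by omega) M (|α| * (M : ℝ) ^ s) (fun t => α * t ^ s) hA hA2 (hsm M α (by linarith) hα) S hS hcard c hc
  · intro Q B
    obtain ⟨c0, C0, hc0, hC0, hsm⟩ := Pool.Agent.W5h23.SF.smooth_log (Q + 1 + 2)
    obtain ⟨θ, hθ, h⟩ := hH (Q + 1) c0 C0 (by omega) hc0 hC0 B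
    refine ⟨θ, hθ, fun η hη hηθ => ?_⟩
    obtain ⟨N₀, h1⟩ := h η hη hηθ
    refine ⟨N₀ + 1, fun N hN M α hA hAQ S hS hcard c hc => ?_⟩
    have hN0 : (0 : ℝ) < N := by exact_mod_cast (by omega : 0 < N)
    have hpos : 0 < |α| := (Real.rpow_pos_of_pos hN0 _).trans_le hA
    have hα : α ≠ 0 := abs_pos.1 hpos
    rcases Nat.eq_zero_or_pos M with h0 | h0
    · subst h0
      have hS' : S = ∅ := by
        rw [← subset_empty]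
        refine hS.trans ?_
        simp
      subst hS'
      unfold Good
      simp
    have hM1 : (1 : ℝ) ≤ M := by exact_mod_cast h0
    have hA2 : |α| ≤ (M : ℝ) ^ (Q + 1) := hAQ.trans (pow_le_pow_right₀ hM1 (by omega))
    exact h1 N (by omega) M |α| (fun t => α * Real.log t) hA hA2 (hsm M α (by linarith) hα) S hS hcard c hc

end Pool.Agent.Results.MP_122e00_nt.SmoothShifts
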